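import Pool.Agent.N641.VB.Stm2

/-!
# VB/MEW: codes are measurable (helper999, for helper641)
-/

set_option autoImplicit false

namespace Pool.Agent.N999.VB

open Pool.Agent.N641.VB

/-! ### the definitions for an arbitrary type -/

section gen

variable {A : Type}

/-- copy of `Dif` -/
def DifG (le : A → A → Prop) (a b c : A) : Prop :=
  le b a ∧ le c a ∧ (∀ d, le d b → le d c → ∀ e, le d e) ∧ ∀ d, le b d → le c d → le a d

/-- copy of `DDc` -/
def DDG (le : A → A → Prop) (D0 : A → Prop) : ℕ → A → Prop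
  | 0, a => D0 a
  | n + 1, a => ∃ s : Finset A,
      (∀ c ∈ s, ∀ d e, DifG le c d e → DDG le D0 n d ∨ DDG le D0 n e) ∧
      ∀ u, (∀ c ∈ s, le c u) → le a u

/-- copy of `ALc` -/
def ALG (le : A → A → Prop) (D0 : A → Prop) (n : ℕ) (a : A) : Prop :=
  ∀ c, le c a → ¬ DDG le D0 n c → ∃ d e, DifG le c d e ∧ ¬ DDG le D0 n d ∧ ¬ DDG le D0 n e

/-- copy of `PPc` -/
def PPG (le : A → A → Prop) (D0 : A → Prop) (n : ℕ) (a : A) : Prop :=
  ¬ DDG le D0 n a ∧ ALG le D0 n a ∧ ∀ c, le c a → ∀ m < n, ALG le D0 m c → DDG le D0 n c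

variable [BooleanAlgebra A] (D0 : A → Prop)

theorem difG_iff (a b c : A) : DifG (· ≤ ·) a b c ↔ b ≤ a ∧ c = a \ b := by
  unfold DifG
  constructor
  · rintro ⟨h1, h2, h3, h4⟩
    refine ⟨h1, ?_⟩
    have h5 : Disjoint b c := by
      rw [disjoint_iff_inf_le]
      exact h3 (b ⊓ c) inf_le_left inf_le_right ⊥
    have h6 : a ≤ b ⊔ c := h4 _ le_sup_left le_sup_right
    have h7 : a = b ⊔ c := le_antisymm h6 (sup_le h1 h2)
    rw [h7, sup_comm, h5.symm.sup_sdiff_cancel_right]
  · rintro ⟨h1, rfl⟩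
    refine ⟨h1, sdiff_le, fun d h2 h3 e => ?_, fun d h2 h3 => ?_⟩
    · have h4 : d ≤ b ⊓ (a \ b) := le_inf h2 h3
      rw [inf_sdiff_self_right] at h4
      exact h4.trans bot_le
    · calc a = b ⊔ a \ b := (sup_sdiff_cancel_right h1).symm
        _ ≤ d := sup_le h2 h3

theorem ddG_iff (n : ℕ) (a : A) : DDG (· ≤ ·) D0 n a ↔ DD D0 n a := by
  induction n generalizing a with
  | zero => exact Iff.rfl
  | succ n ih =>
    show (∃ s : Finset A, (∀ c ∈ s, ∀ d e, DifG (· ≤ ·) c d e → DDG (· ≤ ·) D0 n d ∨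
      DDG (· ≤ ·) D0 n e) ∧ ∀ u, (∀ c ∈ s, c ≤ u) → a ≤ u) ↔ ∃ s : Finset A,
      (∀ c ∈ s, ∀ d ≤ c, DD D0 n d ∨ DD D0 n (c \ d)) ∧ a ≤ s.sup id
    refine exists_congr fun s => and_congr ?_ ?_
    · refine forall_congr' fun c => imp_congr_right fun _ => ?_
      constructor
      · intro h d hd
        rw [← ih, ← ih]
        exact h d (c \ d) ((difG_iff c d (c \ d)).2 ⟨hd, rfl⟩)
      · intro h d e hde
        obtain ⟨h1, rfl⟩ := (difG_iff c d e).1 hde
        rw [ih, ih]
        exact h d h1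
    · constructor
      · intro h
        exact h _ fun c hc => Finset.le_sup (f := id) hc
      · intro h u hu
        exact h.trans (Finset.sup_le fun c hc => hu c hc)

theorem alG_iff (n : ℕ) (a : A) : ALG (· ≤ ·) D0 n a ↔ AL D0 n a := by
  unfold ALG AL
  refine forall_congr' fun c => imp_congr_right fun _ => ?_
  rw [ddG_iff]
  refine imp_congr_right fun _ => ?_
  constructor
  · rintro ⟨d, e, h1, h2, h3⟩
    obtain ⟨h4, rfl⟩ := (difG_iff c d e).1 h1
    rw [ddG_iff] at h2 h3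
    exact ⟨d, h4, h2, h3⟩
  · rintro ⟨d, h4, h2, h3⟩
    refine ⟨d, c \ d, (difG_iff c d (c \ d)).2 ⟨h4, rfl⟩, ?_, ?_⟩
    · rwa [ddG_iff]
    · rwa [ddG_iff]

theorem ppG_iff (n : ℕ) (a : A) : PPG (· ≤ ·) D0 n a ↔ PP D0 n a := by
  unfold PPG PP
  simp only [ddG_iff, alG_iff]

theorem wwG_iff (n : ℕ) (a : A) : n ∈ WW D0 a ↔ ∃ b, b ≤ a ∧ PPG (· ≤ ·) D0 n b := by
  simp only [ppG_iff]
  exact Iff.rfl

end gen

theorem ddc_eq (le : ℕ → ℕ → Prop) (D0 : ℕ → Prop) (n a : ℕ) : DDc le D0 n a ↔ DDG le D0 n a := by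
  induction n generalizing a with
  | zero => exact Iff.rfl
  | succ n ih =>
    show (∃ s : Finset ℕ, (∀ c ∈ s, ∀ d e, Dif le c d e → DDc le D0 n d ∨ DDc le D0 n e) ∧
      ∀ u, (∀ c ∈ s, le c u) → le a u) ↔ ∃ s : Finset ℕ,
      (∀ c ∈ s, ∀ d e, DifG le c d e → DDG le D0 n d ∨ DDG le D0 n e) ∧
      ∀ u, (∀ c ∈ s, le c u) → le a u
    simp only [ih]
    exact Iff.rfl

theorem alc_eq (le : ℕ → ℕ → Prop) (D0 : ℕ → Prop) (n a : ℕ) : ALc le D0 n a ↔ ALG le D0 n a := by
  unfold ALc ALG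
  simp only [ddc_eq]
  exact Iff.rfl

theorem ppc_eq (le : ℕ → ℕ → Prop) (D0 : ℕ → Prop) (n a : ℕ) : PPc le D0 n a ↔ PPG le D0 n a := by
  unfold PPc PPG
  simp only [ddc_eq, alc_eq]

section meas

variable {Y : Type} [MeasurableSpace Y] {le : Y → ℕ → ℕ → Prop} {D0 : Y → ℕ → Prop}
  (hle : ∀ a b, Measurable fun y => le y a b) (hD : ∀ a, Measurable fun y => D0 y a)

include hle

theorem dif_m (a b c : ℕ) : Measurable fun y => Dif (le y) a b c :=
  (hle b a).and ((hle c a).and ((Measurable.forall fun d => (hle d b).imp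
    ((hle d c).imp (Measurable.forall fun e => hle d e))).and
      (Measurable.forall fun d => (hle b d).imp ((hle c d).imp (hle a d)))))

include hD

theorem ddc_m (n a : ℕ) : Measurable fun y => DDc (le y) (D0 y) n a := by
  induction n generalizing a with
  | zero => exact hD a
  | succ n ih =>
    exact Measurable.exists fun s : Finset ℕ =>
      (Measurable.forall fun c => (measurable_const (a := c ∈ s)).imp (Measurable.forall fun d =>
        Measurable.forall fun e => (dif_m hle c d e).imp ((ih d).or (ih e)))).and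
      (Measurable.forall fun u => (Measurable.forall fun c =>
        (measurable_const (a := c ∈ s)).imp (hle c u)).imp (hle a u))

theorem alc_m (n a : ℕ) : Measurable fun y => ALc (le y) (D0 y) n a :=
  Measurable.forall fun c => (hle c a).imp ((ddc_m hle hD n c).not.imp
    (Measurable.exists fun d => Measurable.exists fun e => (dif_m hle c d e).and
      ((ddc_m hle hD n d).not.and (ddc_m hle hD n e).not)))

theorem ppc_m (n a : ℕ) : Measurable fun y => PPc (le y) (D0 y) n a :=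
  (ddc_m hle hD n a).not.and ((alc_m hle hD n a).and (Measurable.forall fun c =>
    (hle c a).imp (Measurable.forall fun m => (measurable_const (a := m < n)).imp
      ((alc_m hle hD m c).imp (ddc_m hle hD n c)))))

end meas

theorem MEW : S_MEW := by
  refine ⟨fun bo D0 n a => ?_, fun Y _ le D0 hle hD n a => ?_⟩
  · rw [@wwG_iff ℕ bo D0 n a]
    refine exists_congr fun b => and_congr_right fun _ => ?_
    exact (ppc_eq _ _ _ _).symm
  · have hle' : ∀ a b, Measurable fun y => le y a b := fun a b => measurableSet_setOf.1 (hle a b)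
    have hD' : ∀ a, Measurable fun y => D0 y a := fun a => measurableSet_setOf.1 (hD a)
    exact measurableSet_setOf.2 (Measurable.exists fun b =>
      (hle' b a).and (ppc_m hle' hD' n b))

end Pool.Agent.N999.VB
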